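import Pool.Agent.Y257.SC.Main
import Pool.Agent.Results.MP_f6d4b0_an.Subadditive

/-!
# Continuous analytic capacity is strongly subadditive

`α(E₁ ∪ E₂) + α(E₁ ∩ E₂) ≤ α(E₁) + α(E₂)` for all compact sets `E₁`, `E₂` of the plane.

The starting file `Subadditive` of this problem has the inequality without the term
`α(E₁ ∩ E₂)`.  New here: both extremal functions (of the union and of the intersection) are
transplanted at the same sequence of scales to densities which are compared by the submodularity
of the soft capacity (starting library `H352R3.SA.Strong`); continuous analytic capacity is not
outer regular, so that this cannot be deduced from the corresponding theorem for analytic capacity.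
-/

set_option autoImplicit false

namespace Pool.Agent.Results.MP_f6d4b0_an.StrongSubadditivity

open Pool.Agent.Results.MP_f6d4b0_an.Subadditive (continuousCapacity continuousCapacity_eq)

/-- **Strong subadditivity of continuous analytic capacity**, for all compact sets. -/
theorem result (E₁ E₂ : Set ℂ) (h₁ : IsCompact E₁) (h₂ : IsCompact E₂) :
    continuousCapacity (E₁ ∪ E₂) + continuousCapacity (E₁ ∩ E₂) ≤
      continuousCapacity E₁ + continuousCapacity E₂ := by
  rw [continuousCapacity_eq (h₁.union h₂), continuousCapacity_eq (h₁.inter h₂),
    continuousCapacity_eq h₁, continuousCapacity_eq h₂]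
  exact Pool.Agent.Y257.SC.alpha_strong h₁ h₂

end Pool.Agent.Results.MP_f6d4b0_an.StrongSubadditivity
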